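import Pool.Agent.W626.FR.Stms
import Pool.Agent.W591.FG.W

set_option autoImplicit false

namespace Pool.Agent.W12.FR

open MeasureTheory ProbabilityTheory Filter FrogGW FrogRec
open scoped ENNReal NNReal Classical Topology

theorem kap_le_one : ∀ (n : ℕ) (Z : Env), kap n Z ≤ 1 := by
  intro n Z
  cases n with
  | zero => exact le_of_eq rfl
  | succ n =>
    show (∑ i ∈ Finset.range (Z []), kap n (sh i Z)) /
      (1 + ∑ i ∈ Finset.range (Z []), kap n (sh i Z)) ≤ 1
    rw [div_le_one (by positivity)]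
    exact le_add_of_nonneg_left zero_le_one

lemma mono_frac {x y : ℝ≥0} (h : x ≤ y) : x / (1 + x) ≤ y / (1 + y) := by
  rw [div_le_div_iff₀ (by positivity) (by positivity), mul_add, mul_add, mul_one, mul_one,
    mul_comm y x]
  exact add_le_add_left h _

theorem kap_anti : ∀ (n : ℕ) (Z : Env), kap (n + 1) Z ≤ kap n Z := by
  intro n
  induction n with
  | zero => intro Z; exact kap_le_one 1 Z
  | succ n ih =>
    intro Z
    exact mono_frac (Finset.sum_le_sum fun i _ => ih (sh i Z))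

lemma prod_one_sub_ge (s : Finset ℕ) (x : ℕ → ℝ) (hx : ∀ i, 0 ≤ x i ∧ x i ≤ 1) :
    1 - ∑ i ∈ s, x i ≤ ∏ i ∈ s, (1 - x i) := by
  induction s using Finset.induction_on with
  | empty => simp
  | insert a s ha ih =>
    rw [Finset.sum_insert ha, Finset.prod_insert ha]
    have h0 : 0 ≤ ∏ i ∈ s, (1 - x i) := Finset.prod_nonneg fun i _ => by linarith [(hx i).2]
    have h1 : ∏ i ∈ s, (1 - x i) ≤ 1 := Finset.prod_le_one (fun i _ => by linarith [(hx i).2])
      (fun i _ => by linarith [(hx i).1])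
    have h2 := (hx a).1
    nlinarith

theorem kap_ww (γ : ℝ) (h0 : 0 < γ) (h1 : γ < 1) : ∀ (n : ℕ) (Z : Env),
    γ * ww ((1 - γ) / (1 + γ)) Z ≤ (kap n Z : ℝ) := by
  set ρ : ℝ := (1 - γ) / (1 + γ) with hρ
  have hρ0 : 0 < ρ := by rw [hρ]; apply div_pos <;> linarith
  have hρ1 : ρ < 1 := by rw [hρ, div_lt_one (by linarith)]; linarith
  obtain ⟨-, -, -, hbd, hrec, -⟩ := FrogGW.W591.taskW ρ hρ0 hρ1
  intro n
  induction n with
  | zero =>
    intro Z
    have : ((kap 0 Z : ℝ≥0) : ℝ) = 1 := by simp [kap]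
    rw [this]
    have := hbd Z
    nlinarith
  | succ n ih =>
    intro Z
    set w : ℝ := ∑ i ∈ Finset.range (Z []), ww ρ (sh i Z) with hw
    have hw0 : 0 ≤ w := Finset.sum_nonneg fun i _ => (hbd (sh i Z)).1
    set K : ℝ := ∑ i ∈ Finset.range (Z []), (kap n (sh i Z) : ℝ) with hK
    have hKw : γ * w ≤ K := by
      rw [hw, hK, Finset.mul_sum]
      exact Finset.sum_le_sum fun i _ => ih (sh i Z)
    have hK0 : 0 ≤ K := Finset.sum_nonneg fun i _ => NNReal.coe_nonneg _
    have hkap : ((kap (n + 1) Z : ℝ≥0) : ℝ) = K / (1 + K) := by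
      simp [kap, hK]
    rw [hkap, hrec Z]
    have hpr0 : 0 ≤ ∏ i ∈ Finset.range (Z []), (1 - ww ρ (sh i Z)) :=
      Finset.prod_nonneg fun i _ => by linarith [(hbd (sh i Z)).2]
    have hpr1 := prod_one_sub_ge (Finset.range (Z [])) (fun i => ww ρ (sh i Z))
      (fun i => hbd (sh i Z))
    set P : ℝ := ∏ i ∈ Finset.range (Z []), (1 - ww ρ (sh i Z)) with hP
    have hA : 1 - P ≤ w := by linarith
    have hB : 1 - P ≤ 1 := by linarith
    have hγρ : ρ * (1 + γ) = 1 - γ := by rw [hρ]; field_simp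
    have h2 : γ * w / (1 + γ * w) ≤ K / (1 + K) := by
      rw [div_le_div_iff₀ (by positivity) (by positivity)]
      nlinarith
    refine le_trans ?_ h2
    rw [le_div_iff₀ (by positivity)]
    have hgw : 0 ≤ γ * w := by positivity
    -- `ρ (1 - P) (1 + γ w) ≤ w`
    have h3 : ρ * (1 - P) * (1 + γ * w) ≤ w := by
      rcases le_total w 1 with hc | hc
      · have h4 : (1 - P) * (1 + γ * w) ≤ w * (1 + γ) := by
          have : (1 - P) * (1 + γ * w) ≤ w * (1 + γ * w) :=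
            mul_le_mul_of_nonneg_right hA (by linarith)
          nlinarith
        have h5 : ρ * ((1 - P) * (1 + γ * w)) ≤ ρ * (w * (1 + γ)) :=
          mul_le_mul_of_nonneg_left h4 hρ0.le
        have h6 : ρ * (w * (1 + γ)) = w * (1 - γ) := by rw [← hγρ]; ring
        nlinarith
      · have h4 : (1 - P) * (1 + γ * w) ≤ w * (1 + γ) := by
          have : (1 - P) * (1 + γ * w) ≤ 1 * (1 + γ * w) :=
            mul_le_mul_of_nonneg_right hB (by linarith)
          nlinarith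
        have h5 : ρ * ((1 - P) * (1 + γ * w)) ≤ ρ * (w * (1 + γ)) :=
          mul_le_mul_of_nonneg_left h4 hρ0.le
        have h6 : ρ * (w * (1 + γ)) = w * (1 - γ) := by rw [← hγρ]; ring
        nlinarith
    have h7 : γ * (ρ * (1 - P) * (1 + γ * w)) ≤ γ * w := mul_le_mul_of_nonneg_left h3 h0.le
    linarith

theorem taskKap : TaskKap := by
  refine ⟨kap_le_one, kap_anti, ?_, ?_, ?_⟩
  · intro n Z
    unfold KK
    refine (Finset.sum_le_sum fun i _ => kap_le_one n (sh i Z)).trans ?_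
    simp
  · intro n Z
    unfold KK kc
    refine Finset.sum_congr rfl fun i hi => ?_
    rw [if_pos (Finset.mem_range.mp hi)]
  · intro γ h0 h1 n Z
    exact kap_ww γ h0 h1 n Z

theorem taskSum : TaskSum := by
  intro δ ρ C C' hδ hρ
  have hδr : (0 : ℝ) < δ := hδ
  have hρr : (ρ : ℝ) < 1 := hρ
  have hρ0 : (0 : ℝ) ≤ ρ := ρ.2
  have hC0 : (0 : ℝ) ≤ C := C.2
  have hC'0 : (0 : ℝ) ≤ C' := C'.2
  set lam : ℝ := δ / (2 * (C + 1)) with hlam
  have hlam0 : 0 < lam := by positivity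
  have hlamC : lam * C ≤ δ / 2 := by
    rw [hlam, div_mul_eq_mul_div, div_le_div_iff₀ (by positivity) (by norm_num)]
    nlinarith
  set e0 : ℝ := min ((1 - ρ) / 2) (lam * ((1 - ρ) / 2)) with he0
  have he0pos : 0 < e0 := by
    rw [he0]
    apply lt_min
    · linarith
    · apply mul_pos hlam0; linarith
  refine ⟨max 1 (Real.toNNReal (C' / e0)), le_max_left _ _, ?_⟩
  intro M hM Φ A Ψ L hΦ hΨ hA h1 h2 h3
  have hM1 : (1 : ℝ) ≤ M := by exact_mod_cast (le_max_left _ _).trans hM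
  have hM2 : (C' : ℝ) / e0 ≤ M := by
    have : Real.toNNReal (C' / e0) ≤ M := (le_max_right _ _).trans hM
    exact Real.toNNReal_le_iff_le_coe.mp this
  set ε : ℝ≥0 := C' / M ^ 2 with hε
  have hεr : (ε : ℝ) ≤ e0 := by
    rw [hε]
    push_cast
    rw [div_le_iff₀ (by positivity)]
    rw [div_le_iff₀ he0pos] at hM2
    nlinarith [mul_pos he0pos (lt_of_lt_of_le zero_lt_one hM1)]
  have hε0 : (0 : ℝ) ≤ ε := ε.2
  have hεa : (ε : ℝ) ≤ (1 - ρ) / 2 := hεr.trans (min_le_left _ _)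
  have hεb : (ε : ℝ) ≤ lam * ((1 - ρ) / 2) := hεr.trans (min_le_right _ _)
  -- finiteness
  have hAf : ∀ n, A n ≠ ∞ := fun n => ne_top_of_le_ne_top ENNReal.one_ne_top (hA n)
  have hΦf : ∀ n, Φ n ≠ ∞ := fun n => ne_top_of_le_ne_top ENNReal.one_ne_top (hΦ n)
  have hΨf : ∀ n, 1 ≤ n → Ψ n ≠ ∞ := by
    intro n hn
    induction n, hn using Nat.le_induction with
    | base => exact hΨ
    | succ n hn ih =>
      have hLf : L n ≠ ∞ := ne_top_of_le_ne_top (ENNReal.mul_ne_top ENNReal.coe_ne_top ih) (h3 n hn)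
      refine ne_top_of_le_ne_top ?_ (h2 n hn)
      exact ENNReal.add_ne_top.mpr ⟨ENNReal.add_ne_top.mpr
        ⟨ENNReal.mul_ne_top ENNReal.coe_ne_top ih, ENNReal.mul_ne_top ENNReal.coe_ne_top (hAf n)⟩, hLf⟩
  have hLf : ∀ n, 1 ≤ n → L n ≠ ∞ := fun n hn =>
    ne_top_of_le_ne_top (ENNReal.mul_ne_top ENNReal.coe_ne_top (hΨf n hn)) (h3 n hn)
  -- real versions
  have r1 : ∀ n, 1 ≤ n → (Φ (n + 1)).toReal + δ * (A n).toReal ≤ (Φ n).toReal + (L n).toReal := by
    intro n hn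
    have := ENNReal.toReal_mono (ENNReal.add_ne_top.mpr ⟨hΦf n, hLf n hn⟩) (h1 n hn)
    rw [ENNReal.toReal_add (hΦf _) (ENNReal.mul_ne_top ENNReal.coe_ne_top (hAf n)),
      ENNReal.toReal_add (hΦf _) (hLf n hn), ENNReal.toReal_mul, ENNReal.coe_toReal] at this
    exact this
  have r3 : ∀ n, 1 ≤ n → (L n).toReal ≤ ε * (Ψ n).toReal := by
    intro n hn
    have := ENNReal.toReal_mono (ENNReal.mul_ne_top ENNReal.coe_ne_top (hΨf n hn)) (h3 n hn)
    rw [ENNReal.toReal_mul, ENNReal.coe_toReal] at this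
    exact this
  have r2 : ∀ n, 1 ≤ n → (Ψ (n + 1)).toReal ≤
      ρ * (Ψ n).toReal + C * (A n).toReal + (L n).toReal := by
    intro n hn
    have ha : (ρ : ℝ≥0∞) * Ψ n ≠ ∞ := ENNReal.mul_ne_top ENNReal.coe_ne_top (hΨf n hn)
    have hb : (C : ℝ≥0∞) * A n ≠ ∞ := ENNReal.mul_ne_top ENNReal.coe_ne_top (hAf n)
    have := ENNReal.toReal_mono (ENNReal.add_ne_top.mpr ⟨ENNReal.add_ne_top.mpr ⟨ha, hb⟩,
      hLf n hn⟩) (h2 n hn)
    rw [ENNReal.toReal_add (ENNReal.add_ne_top.mpr ⟨ha, hb⟩) (hLf n hn),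
      ENNReal.toReal_add ha hb, ENNReal.toReal_mul, ENNReal.toReal_mul, ENNReal.coe_toReal,
      ENNReal.coe_toReal] at this
    exact this
  set V : ℕ → ℝ := fun n => (Φ (n + 1)).toReal + lam * (Ψ (n + 1)).toReal with hV
  have hV0 : ∀ n, 0 ≤ V n := fun n => by
    have h5 : (0 : ℝ) ≤ (Φ (n + 1)).toReal := ENNReal.toReal_nonneg
    have h6 : (0 : ℝ) ≤ (Ψ (n + 1)).toReal := ENNReal.toReal_nonneg
    rw [hV]
    positivity
  have hstep : ∀ n, V (n + 1) + δ / 2 * (A (n + 1)).toReal ≤ V n := by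
    intro n
    have a1 := r1 (n + 1) (by omega)
    have a2 := r2 (n + 1) (by omega)
    have a3 := r3 (n + 1) (by omega)
    have hp : (0 : ℝ) ≤ (Ψ (n + 1)).toReal := ENNReal.toReal_nonneg
    have ha : (0 : ℝ) ≤ (A (n + 1)).toReal := ENNReal.toReal_nonneg
    have hl : (0 : ℝ) ≤ (L (n + 1)).toReal := ENNReal.toReal_nonneg
    rw [hV]
    simp only
    have b1 := mul_le_mul_of_nonneg_left a2 hlam0.le
    -- the coefficient of `p`
    have b2 : (1 + lam) * (L (n + 1)).toReal ≤ (1 + lam) * (ε * (Ψ (n + 1)).toReal) :=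
      mul_le_mul_of_nonneg_left a3 (by linarith)
    have b3 : ε * (1 + lam) + lam * ρ ≤ lam := by nlinarith
    have b4 : (ε * (1 + lam) + lam * ρ) * (Ψ (n + 1)).toReal ≤ lam * (Ψ (n + 1)).toReal :=
      mul_le_mul_of_nonneg_right b3 hp
    have b5 : lam * C * (A (n + 1)).toReal ≤ δ / 2 * (A (n + 1)).toReal :=
      mul_le_mul_of_nonneg_right hlamC ha
    nlinarith
  have hsum : ∀ N, ∑ n ∈ Finset.range N, δ / 2 * (A (n + 1)).toReal ≤ V 0 - V N := by
    intro N
    induction N with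
    | zero => simp
    | succ N ih =>
      rw [Finset.sum_range_succ]
      have := hstep N
      linarith
  have hsm : Summable fun n => δ / 2 * (A (n + 1)).toReal := by
    apply summable_of_sum_range_le (c := V 0)
    · intro n
      have ha : (0 : ℝ) ≤ (A (n + 1)).toReal := ENNReal.toReal_nonneg
      positivity
    · intro N
      have := hsum N
      have := hV0 N
      linarith
  have ht := hsm.tendsto_atTop_zero
  have ht2 : Tendsto (fun n => (A (n + 1)).toReal) atTop (𝓝 0) := by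
    have := ht.const_mul (2 / (δ : ℝ))
    rw [mul_zero] at this
    refine this.congr fun n => ?_
    field_simp
  have ht3 := ENNReal.tendsto_ofReal ht2
  rw [ENNReal.ofReal_zero] at ht3
  rw [← tendsto_add_atTop_iff_nat 1]
  refine ht3.congr fun n => ?_
  exact ENNReal.ofReal_toReal (hAf _)

theorem taskFin : TaskKap → TaskMeasZ → TaskNu → TaskFin := by
  intro hK _ hN p _ M mu hM hG
  have hprob := hN.2.1
  have key : ∀ (x : ℝ≥0), 0 < x → x ≤ 1 → ∀ (n : ℕ) (Z : Env),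
      (kap n Z : ℝ≥0∞) * ∫⁻ lam, ENNReal.ofReal (Real.exp (-(lam : ℝ))) ∂(nu mu n Z) ≤
        (x : ℝ≥0∞) + ((4 / x ^ 2 : ℝ≥0) : ℝ≥0∞) * ((kap n Z : ℝ≥0∞) * EG M mu 2 n Z) := by
    intro x hx hx1 n Z
    have := hprob mu n Z
    rcases le_total (kap n Z) x with hc | hc
    · refine le_trans ?_ le_self_add
      have h1 : ∫⁻ lam, ENNReal.ofReal (Real.exp (-(lam : ℝ))) ∂(nu mu n Z) ≤ 1 := by
        calc ∫⁻ lam, ENNReal.ofReal (Real.exp (-(lam : ℝ))) ∂(nu mu n Z)
            ≤ ∫⁻ _lam, 1 ∂(nu mu n Z) := by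
              apply lintegral_mono
              intro lam
              rw [← ENNReal.ofReal_one]
              apply ENNReal.ofReal_le_ofReal
              apply Real.exp_le_one_iff.mpr
              simp
          _ = 1 := by simp
      calc _ ≤ (kap n Z : ℝ≥0∞) * 1 := by gcongr
        _ ≤ x := by rw [mul_one]; exact_mod_cast hc
    · refine le_trans ?_ le_add_self
      have h1 : ∫⁻ lam, ENNReal.ofReal (Real.exp (-(lam : ℝ))) ∂(nu mu n Z) ≤
          ((4 / x ^ 2 : ℝ≥0) : ℝ≥0∞) * EG M mu 2 n Z := by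
        unfold EG
        rw [← lintegral_const_mul' _ _ ENNReal.coe_ne_top]
        apply lintegral_mono
        intro lam
        beta_reduce
        rw [← ENNReal.coe_mul]
        have h2 : Real.exp (-(lam : ℝ)) ≤ ((4 / x ^ 2 * gg M 2 (kap n Z) lam : ℝ≥0) : ℝ) := by
          unfold gg
          push_cast
          have hxr : (0 : ℝ) < x := hx
          have hx1r : (x : ℝ) ≤ 1 := hx1
          have hMr : (1 : ℝ) ≤ M := hM
          have hcr : (x : ℝ) ≤ kap n Z := hc
          have hl : (0 : ℝ) ≤ lam := lam.2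
          have hkM : (x : ℝ) ≤ kap n Z * M := by nlinarith
          have h3 : 1 + (lam : ℝ) / (kap n Z * M) ≤ (1 + lam) / x := by
            rw [add_div]
            apply add_le_add
            · rw [le_div_iff₀ hxr]; linarith
            · exact div_le_div_of_nonneg_left hl hxr hkM
          have h4 : 0 < 1 + (lam : ℝ) / (kap n Z * M) := by
            have : 0 ≤ (lam : ℝ) / (kap n Z * M) := by positivity
            linarith
          have h5 : (1 + (lam : ℝ) / (kap n Z * M)) ^ 2 ≤ ((1 + lam) / x) ^ 2 :=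
            pow_le_pow_left₀ h4.le h3 2
          have h6 : (1 + (lam : ℝ)) ^ 2 ≤ 4 * Real.exp lam := by
            have h7 : 1 + (lam : ℝ) ≤ 2 * Real.exp (lam / 2) := by
              have := Real.add_one_le_exp ((lam : ℝ) / 2)
              linarith
            calc (1 + (lam : ℝ)) ^ 2 ≤ (2 * Real.exp (lam / 2)) ^ 2 :=
                  pow_le_pow_left₀ (by linarith) h7 2
              _ = 4 * Real.exp lam := by
                  rw [mul_pow, ← Real.exp_nat_mul]
                  norm_num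
                  ring_nf
          rw [inv_pow, ← div_eq_mul_inv, le_div_iff₀ (by positivity)]
          calc Real.exp (-(lam : ℝ)) * (1 + (lam : ℝ) / (kap n Z * M)) ^ 2
              ≤ Real.exp (-(lam : ℝ)) * ((1 + lam) / x) ^ 2 :=
                mul_le_mul_of_nonneg_left h5 (Real.exp_pos _).le
            _ = (Real.exp (-(lam : ℝ)) * (1 + lam) ^ 2) / x ^ 2 := by
                rw [div_pow]; ring
            _ ≤ (Real.exp (-(lam : ℝ)) * (4 * Real.exp lam)) / x ^ 2 := by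
                apply div_le_div_of_nonneg_right _ (by positivity)
                exact mul_le_mul_of_nonneg_left h6 (Real.exp_pos _).le
            _ = 4 / x ^ 2 := by
                congr 1
                rw [mul_left_comm, ← Real.exp_add]
                simp
        rw [ENNReal.ofReal_le_iff_le_toReal ENNReal.coe_ne_top]
        exact h2
      calc _ ≤ (kap n Z : ℝ≥0∞) * (((4 / x ^ 2 : ℝ≥0) : ℝ≥0∞) * EG M mu 2 n Z) := by gcongr
        _ = _ := by ring
  have key2 : ∀ (x : ℝ≥0), 0 < x → x ≤ 1 → ∀ n : ℕ,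
      (∫⁻ Z, (kap n Z : ℝ≥0∞) *
        ∫⁻ lam, ENNReal.ofReal (Real.exp (-(lam : ℝ))) ∂(nu mu n Z) ∂(GW p)) ≤
      (x : ℝ≥0∞) + ((4 / x ^ 2 : ℝ≥0) : ℝ≥0∞) * Gain p M mu n := by
    intro x hx hx1 n
    refine (lintegral_mono fun Z => key x hx hx1 n Z).trans ?_
    rw [lintegral_add_left measurable_const, lintegral_const_mul' _ _ ENNReal.coe_ne_top]
    unfold Gain
    simp
  rw [ENNReal.tendsto_nhds_zero] at hG ⊢
  intro ε hε
  obtain ⟨e, he0, he⟩ : ∃ e : ℝ≥0, 0 < e ∧ (e : ℝ≥0∞) ≤ ε := by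
    obtain ⟨e, he1, he2⟩ := ENNReal.lt_iff_exists_nnreal_btwn.mp hε
    exact ⟨e, by exact_mod_cast he1, he2.le⟩
  set x : ℝ≥0 := min 1 (e / 2) with hx
  have hx0 : 0 < x := lt_min one_pos (by positivity)
  have hx1 : x ≤ 1 := min_le_left _ _
  have hx2 : x ≤ e / 2 := min_le_right _ _
  have hC0 : (0 : ℝ≥0) < 4 / x ^ 2 := by positivity
  have hd : (0 : ℝ≥0∞) < ((e / 2 / (4 / x ^ 2) : ℝ≥0) : ℝ≥0∞) := by
    have : (0 : ℝ≥0) < e / 2 / (4 / x ^ 2) := by positivity
    exact_mod_cast this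
  filter_upwards [hG _ hd] with n hn
  refine (key2 x hx0 hx1 n).trans (le_trans ?_ he)
  calc (x : ℝ≥0∞) + ((4 / x ^ 2 : ℝ≥0) : ℝ≥0∞) * Gain p M mu n
      ≤ ((e / 2 : ℝ≥0) : ℝ≥0∞) + ((4 / x ^ 2 : ℝ≥0) : ℝ≥0∞) *
        ((e / 2 / (4 / x ^ 2) : ℝ≥0) : ℝ≥0∞) := by
        apply add_le_add
        · exact_mod_cast hx2
        · gcongr
    _ = (e : ℝ≥0∞) := by
        rw [← ENNReal.coe_mul, ← ENNReal.coe_add, mul_div_cancel₀ _ hC0.ne', add_halves]

end Pool.Agent.W12.FR
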