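import Pool.Agent.W626.FR.Stms

set_option autoImplicit false

namespace Pool.Agent.W12.FR

open MeasureTheory ProbabilityTheory Filter FrogGW FrogRec
open scoped ENNReal NNReal Classical Topology

/-! ### NU -/

lemma meas_sel (hS : TaskSelMeas) (mu c : ℝ≥0) (κ : ℕ → ℝ≥0) (s : Finset ℕ) (J : ℕ) (hc : 0 < c) :
    Measurable fun w : ℕ → ℝ × ℝ≥0 => Sel (mu + (w J).2) c κ s w := by
  have h1 : Measurable fun w : ℕ → ℝ × ℝ≥0 => (mu + (w J).2, w) := by
    refine Measurable.prodMk ?_ measurable_id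
    exact measurable_const.add (measurable_pi_apply J).snd
  exact (hS c κ s hc).comp h1

lemma star_prob (hS : TaskSelMeas) (mu : ℝ≥0) (D : ℕ) (κ : ℕ → ℝ≥0) (ν : ℕ → Measure ℝ≥0) :
    IsProbabilityMeasure (star mu D κ ν) := by
  unfold FrogRec.star
  split_ifs with h
  · infer_instance
  · constructor
    rw [Measure.finsetSum_apply]
    have h1 : ∀ J ∈ Finset.range D, ((((κ J / ∑ k ∈ Finset.range D, κ k : ℝ≥0) : ℝ≥0∞) •
        (WW ν).map (fun w => Sel (mu + (w J).2) (1 + ∑ k ∈ Finset.range D, κ k) κ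
      ((Finset.range D).erase J) w)) Set.univ) =
        ((κ J / ∑ k ∈ Finset.range D, κ k : ℝ≥0) : ℝ≥0∞) := by
      intro J _
      have := Measure.isProbabilityMeasure_map (μ := WW ν)
        (meas_sel hS mu (1 + ∑ k ∈ Finset.range D, κ k) κ ((Finset.range D).erase J) J
          (by positivity)).aemeasurable
      rw [Measure.smul_apply, measure_univ, smul_eq_mul, mul_one]
    rw [Finset.sum_congr rfl h1, ← ENNReal.ofNNReal_finsetSum, ← Finset.sum_div, div_self h]
    rfl

lemma kap_succ (n : ℕ) (Z : Env) : kap (n + 1) Z = KK n Z / (1 + KK n Z) := rfl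

lemma sum_kc (n : ℕ) (Z : Env) : ∑ k ∈ Finset.range (Z []), kc n Z k = KK n Z := by
  unfold KK kc
  refine Finset.sum_congr rfl fun i hi => ?_
  rw [if_pos (Finset.mem_range.mp hi)]

lemma one_sub_kap (n : ℕ) (Z : Env) : 1 - (kap (n + 1) Z : ℝ) = 1 / (1 + (KK n Z : ℝ)) := by
  rw [kap_succ]
  push_cast
  have : (0 : ℝ) ≤ KK n Z := (KK n Z).2
  field_simp
  ring

theorem taskNu : TaskSelB → TaskSelMeas → TaskNu := by
  intro hB hS
  refine ⟨star_prob hS, ?_, ?_, ?_⟩
  · intro mu n Z
    cases n with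
    | zero => unfold nu; infer_instance
    | succ n => unfold nu; exact star_prob hS _ _ _ _
  · intro mu n Z h
    cases n with
    | zero => exact absurd h one_ne_zero
    | succ n =>
      rw [kap_succ, div_eq_zero_iff] at h
      have h1 : KK n Z = 0 := by
        rcases h with h | h
        · exact h
        · exact absurd h (by positivity)
      unfold nu FrogRec.star
      rw [sum_kc, if_pos h1]
  · intro mu n Z hn hk
    obtain ⟨m, rfl⟩ : ∃ m, n = m + 1 := ⟨n - 1, by omega⟩
    have hK : KK m Z ≠ 0 := by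
      intro h
      apply hk
      rw [kap_succ, h, zero_div]
    unfold nu FrogRec.star
    rw [sum_kc, if_neg hK, Measure.finsetSum_apply]
    apply Finset.sum_eq_zero
    intro J _
    rw [Measure.smul_apply, Measure.map_apply (meas_sel hS _ _ _ _ _ (by positivity))]
    · have : (fun w : ℕ → ℝ × ℝ≥0 => Sel (mu + (w J).2) (1 + KK m Z) (kc m Z)
        ((Finset.range (Z [])).erase J) w) ⁻¹' {lam | (lam : ℝ) < mu * (1 - kap (m + 1) Z)} = ∅ := by
        rw [Set.eq_empty_iff_forall_notMem]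
        intro w hw
        have h1 := (hB (mu + (w J).2) (1 + KK m Z) (kc m Z) ((Finset.range (Z [])).erase J) w
          (by positivity)).2.2
        have h2 : ((Sel (mu + (w J).2) (1 + KK m Z) (kc m Z)
          ((Finset.range (Z [])).erase J) w : ℝ≥0) : ℝ) < mu * (1 - kap (m + 1) Z) := hw
        rw [one_sub_kap] at h2
        have h3 : ((mu + (w J).2) / (1 + KK m Z) : ℝ) ≤ ((Sel (mu + (w J).2) (1 + KK m Z) (kc m Z)
          ((Finset.range (Z [])).erase J) w : ℝ≥0) : ℝ) := by exact_mod_cast h1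
        have hK0 : (0 : ℝ) ≤ KK m Z := (KK m Z).2
        have hw0 : (0 : ℝ) ≤ (w J).2 := ((w J).2).2
        have h4 : (mu : ℝ) * (1 / (1 + (KK m Z : ℝ))) ≤ ((mu + (w J).2) / (1 + KK m Z) : ℝ) := by
          rw [mul_one_div]
          apply div_le_div_of_nonneg_right _ (by positivity)
          linarith
        linarith
      rw [this, measure_empty, smul_zero]
    · exact measurableSet_lt (by fun_prop) measurable_const

/-! ### MEASZ -/

section meas

local instance instMS : MeasurableSpace (Finset (List ℕ)) := ⊤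

local instance instDMS : DiscreteMeasurableSpace (Finset (List ℕ)) := ⟨fun _ => trivial⟩

/-- the next level -/
def nxt (U : Finset (List ℕ)) (Z : Env) : Finset (List ℕ) :=
  U.biUnion fun u => (Finset.range (Z u)).image fun i => i :: u

lemma meas_nxt (U : Finset (List ℕ)) : Measurable (nxt U) := by
  have h1 : nxt U = (fun x : (u : U) → ℕ => U.attach.biUnion fun u =>
      (Finset.range (x u)).image fun i => i :: u.1) ∘ (fun Z : Env => fun u : U => Z u.1) := by
    funext Z
    unfold nxt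
    ext y
    simp only [Function.comp_apply, Finset.mem_biUnion, Finset.mem_attach, true_and,
      Subtype.exists]
    constructor
    · rintro ⟨a, ha, hy⟩
      exact ⟨a, ha, hy⟩
    · rintro ⟨a, ha, hy⟩
      exact ⟨a, ha, hy⟩
  rw [h1]
  refine Measurable.comp (measurable_of_countable _) ?_
  exact measurable_pi_lambda _ fun u => measurable_pi_apply u.1

lemma lev_succ (Z : Env) (n : ℕ) : lev Z (n + 1) = nxt (lev Z n) Z := rfl

lemma meas_lev (n : ℕ) : Measurable fun Z : Env => lev Z n := by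
  induction n with
  | zero =>
    have : (fun Z : Env => lev Z 0) = fun _ => {[]} := rfl
    rw [this]
    exact measurable_const
  | succ n ih =>
    have h1 : Measurable (fun q : Finset (List ℕ) × Env => nxt q.1 q.2) := by
      refine measurable_from_prod_countable_right ?_
      intro U
      exact meas_nxt U
    have h3 : Measurable (fun Z : Env => (lev Z n, Z)) := Measurable.prodMk ih measurable_id
    have h2 := Measurable.comp h1 h3
    have h4 : (fun Z : Env => lev Z (n + 1)) =
        (fun q : Finset (List ℕ) × Env => nxt q.1 q.2) ∘ (fun Z : Env => (lev Z n, Z)) := by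
      funext Z
      rw [lev_succ]
      rfl
    rw [h4]
    exact h2

lemma vert_succ (Z : Env) (n : ℕ) : vert Z (n + 1) = lev Z n ∪ vert Z n := by
  unfold vert
  rw [Finset.range_add_one, Finset.biUnion_insert]

lemma vert_zero (Z : Env) : vert Z 0 = ∅ := by
  unfold vert
  rw [Finset.range_zero, Finset.biUnion_empty]

lemma meas_vert (n : ℕ) : Measurable fun Z : Env => vert Z n := by
  induction n with
  | zero =>
    simp only [vert_zero]
    exact measurable_const
  | succ n ih =>
    have h1 : Measurable (fun q : Finset (List ℕ) × Finset (List ℕ) => q.1 ∪ q.2) :=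
      measurable_of_countable _
    have h2 : Measurable fun Z : Env => lev Z n ∪ vert Z n := h1.comp ((meas_lev n).prodMk ih)
    simp only [vert_succ]
    exact h2

end meas

lemma nil_mem_vert (Z : Env) (n : ℕ) : [] ∈ vert Z (n + 1) := by
  unfold vert
  rw [Finset.mem_biUnion]
  exact ⟨0, by simp, by simp [lev]⟩

lemma root_eq (hA : TaskAlg) (n : ℕ) (Z Z' : Env) (h : vert Z (n + 2) = vert Z' (n + 2)) :
    Z [] = Z' [] ∧ ∀ k < Z [], vert (sh k Z) (n + 1) = vert (sh k Z') (n + 1) := by
  have h1 : ∀ i, i < Z [] ↔ i < Z' [] := by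
    intro i
    have a1 := (hA.1 (n + 1) Z i []).1
    have a2 := (hA.1 (n + 1) Z' i []).1
    rw [h] at a1
    have b1 := nil_mem_vert (sh i Z) n
    have b2 := nil_mem_vert (sh i Z') n
    constructor
    · intro hi
      exact (a2.mp (a1.mpr ⟨hi, b1⟩)).1
    · intro hi
      exact (a1.mp (a2.mpr ⟨hi, b2⟩)).1
  have h2 : Z [] = Z' [] := by
    apply le_antisymm
    · by_contra hc
      push Not at hc
      exact lt_irrefl _ ((h1 _).mp hc)
    · by_contra hc
      push Not at hc
      exact lt_irrefl _ ((h1 _).mpr hc)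
  refine ⟨h2, ?_⟩
  intro k hk
  ext x
  have a1 := (hA.1 (n + 1) Z k x).1
  have a2 := (hA.1 (n + 1) Z' k x).1
  rw [h] at a1
  constructor
  · intro hx
    exact (a2.mp (a1.mpr ⟨hk, hx⟩)).2
  · intro hx
    exact (a1.mp (a2.mpr ⟨(h1 k).mp hk, hx⟩)).2

lemma two (hA : TaskAlg) : ∀ (n : ℕ) (Z Z' : Env), vert Z (n + 1) = vert Z' (n + 1) →
    kap n Z = kap n Z' ∧ ∀ mu, nu mu n Z = nu mu n Z' := by
  intro n
  induction n with
  | zero => intro Z Z' _; exact ⟨rfl, fun _ => rfl⟩
  | succ n ih =>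
    intro Z Z' h
    obtain ⟨h1, h2⟩ := root_eq hA n Z Z' h
    have h3 : ∀ k < Z [], kap n (sh k Z) = kap n (sh k Z') := fun k hk => (ih _ _ (h2 k hk)).1
    have h4 : ∀ k < Z [], ∀ mu, nu mu n (sh k Z) = nu mu n (sh k Z') :=
      fun k hk => (ih _ _ (h2 k hk)).2
    have hKK : KK n Z = KK n Z' := by
      unfold KK
      rw [← h1]
      exact Finset.sum_congr rfl fun i hi => h3 i (Finset.mem_range.mp hi)
    refine ⟨?_, ?_⟩
    · rw [kap_succ, kap_succ, hKK]
    · intro mu
      have hkc : kc n Z = kc n Z' := by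
        funext k
        unfold kc
        rw [← h1]
        split_ifs with hk
        · exact h3 k hk
        · rfl
      have hnc : (fun k => if k < Z [] then nu mu n (sh k Z) else Measure.dirac 0) =
          (fun k => if k < Z' [] then nu mu n (sh k Z') else Measure.dirac 0) := by
        funext k
        rw [← h1]
        split_ifs with hk
        · exact h4 k hk mu
        · rfl
      show FrogRec.star mu (Z []) (kc n Z) _ = FrogRec.star mu (Z' []) (kc n Z') _
      rw [hkc, hnc, h1]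

theorem taskMeasZ : TaskAlg → TaskMeasZ := by
  intro hA
  refine ⟨?_, two hA, ?_⟩
  · intro n β _ f hf S hS
    have h1 : f ⁻¹' S = ⋃ V ∈ {V : Finset (List ℕ) | ∃ Z0, vert Z0 n = V ∧ f Z0 ∈ S},
        {Z : Env | vert Z n = V} := by
      ext Z
      simp only [Set.mem_preimage, Set.mem_iUnion, Set.mem_ofPred_eq, exists_prop]
      constructor
      · intro hZ
        exact ⟨vert Z n, ⟨Z, rfl, hZ⟩, rfl⟩
      · rintro ⟨V, ⟨Z0, h2, h3⟩, h4⟩
        rw [hf Z Z0 (by rw [h4, h2])]
        exact h3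
    rw [h1]
    refine MeasurableSet.biUnion (Set.to_countable _) fun V _ => ?_
    let _ : MeasurableSpace (Finset (List ℕ)) := ⊤
    exact meas_vert n (t := {V}) trivial
  · intro n Z Z' h
    obtain ⟨h1, h2⟩ := root_eq hA n Z Z' h
    have h3 : ∀ k < Z [], kap n (sh k Z) = kap n (sh k Z') ∧
        ∀ mu, nu mu n (sh k Z) = nu mu n (sh k Z') := fun k hk => two hA n _ _ (h2 k hk)
    refine ⟨h1, ?_, h3⟩
    unfold KK
    rw [← h1]
    exact Finset.sum_congr rfl fun i hi => (h3 i (Finset.mem_range.mp hi)).1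

/-! ### GOOD -/

theorem taskGood : TaskKap → TaskEnv → TaskMeasZ → TaskGood := by
  intro hK hE hM p _ hp
  obtain ⟨-, -, ⟨α, hα0, hα1, q, hq0, hq1, hq⟩, -⟩ := hE p hp
  refine ⟨α, hα0, hα1, (q : ℝ) / 2, by positivity, ?_, ?_⟩
  · have : (q : ℝ) ≤ 1 := hq1
    linarith
  intro m
  have hroot : Measurable fun Z : Env => Z [] := measurable_pi_apply _
  have hS : ∀ k : ℕ, MeasurableSet {Z : Env | k < Z []} := fun k =>
    hroot (measurableSet_Ioi)
  have hlim : Tendsto (fun k : ℕ => GW p {Z : Env | k < Z []}) atTop (𝓝 0) := by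
    have h1 := tendsto_measure_iInter_atTop (μ := GW p) (s := fun k : ℕ => {Z : Env | k < Z []})
      (fun k => (hS k).nullMeasurableSet)
      (fun a b hab Z hZ => lt_of_le_of_lt hab hZ) ⟨0, measure_ne_top _ _⟩
    have h2 : (⋂ k : ℕ, {Z : Env | k < Z []}) = ∅ := by
      rw [Set.eq_empty_iff_forall_notMem]
      intro Z hZ
      rw [Set.mem_iInter] at hZ
      have h3 : Z [] < Z [] := hZ (Z [])
      exact lt_irrefl _ h3
    rw [h2, measure_empty] at h1
    exact h1
  rw [ENNReal.tendsto_nhds_zero] at hlim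
  have hq2 : (0 : ℝ≥0∞) < ((q / 2 : ℝ≥0) : ℝ≥0∞) := by
    have : (0 : ℝ≥0) < q / 2 := by positivity
    exact_mod_cast this
  obtain ⟨k, hk⟩ := (hlim _ hq2).exists
  refine ⟨m * (1 + k), ?_⟩
  intro mu hmu n hn
  obtain ⟨n', rfl⟩ : ∃ n', n = n' + 1 := ⟨n - 1, by omega⟩
  have hsub : {Z : Env | α ≤ (kap (n' + 1) Z : ℝ)} ⊆
      {Z | Gd α m mu (kap (n' + 1) Z)} ∪ {Z : Env | k < Z []} := by
    intro Z hZ
    by_cases hkZ : k < Z []
    · right; exact hkZ
    · left
      refine ⟨hZ, ?_⟩
      rw [one_sub_kap]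
      push Not at hkZ
      have h1 : (KK n' Z : ℝ) ≤ Z [] := by
        have := hK.2.2.1 n' Z
        exact_mod_cast this
      have h2 : (KK n' Z : ℝ) ≤ k := h1.trans (by exact_mod_cast hkZ)
      have h3 : (0 : ℝ) ≤ KK n' Z := (KK n' Z).2
      rw [mul_one_div, le_div_iff₀ (by positivity)]
      have h4 : (m : ℝ) * (1 + k) ≤ mu := by exact_mod_cast hmu
      have h5 : (0 : ℝ) ≤ m := m.2
      nlinarith
  have h1 := (hq (n' + 1)).trans ((measure_mono hsub).trans (measure_union_le _ _))
  have h2 : (q : ℝ≥0∞) ≤ GW p {Z | Gd α m mu (kap (n' + 1) Z)} + ((q / 2 : ℝ≥0) : ℝ≥0∞) :=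
    h1.trans (by gcongr)
  have h3 : ENNReal.ofReal ((q : ℝ) / 2) = ((q / 2 : ℝ≥0) : ℝ≥0∞) := by
    rw [ENNReal.ofReal, ENNReal.coe_inj]
    ext
    rw [Real.coe_toNNReal _ (by positivity)]
    push_cast
    rfl
  rw [h3]
  have h4 : (q : ℝ≥0∞) = ((q / 2 : ℝ≥0) : ℝ≥0∞) + ((q / 2 : ℝ≥0) : ℝ≥0∞) := by
    rw [← ENNReal.coe_add, add_halves]
  rw [h4] at h2
  exact (ENNReal.add_le_add_iff_right ENNReal.coe_ne_top).mp h2

end Pool.Agent.W12.FR
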